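import Pool.Agent.W558.S2.Stms3
import Pool.Agent.W558.Fin1

set_option autoImplicit false
set_option linter.unusedVariables false
set_option linter.unusedSimpArgs false
set_option linter.unusedSectionVars false

universe u

namespace Pool.Agent.W558

section qs

variable {k R L : Type u} [Field k] [CommRing R] [Algebra k R] [Field L] [Algebra k L]

/-- The fractions with denominators in `S`. -/
def QS (ψ : R →ₐ[k] L) (S : Submonoid R) : Subalgebra k L where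
  carrier := {x | ∃ a, ∃ s ∈ S, ψ s ≠ 0 ∧ x * ψ s = ψ a}
  mul_mem' := by
    rintro x y ⟨a, s, hs, h0, h1⟩ ⟨a', s', hs', h0', h1'⟩
    refine ⟨a * a', s * s', S.mul_mem hs hs', by rw [map_mul]; exact mul_ne_zero h0 h0', ?_⟩
    rw [map_mul, map_mul, ← h1, ← h1']
    ring
  add_mem' := by
    rintro x y ⟨a, s, hs, h0, h1⟩ ⟨a', s', hs', h0', h1'⟩
    refine ⟨a * s' + a' * s, s * s', S.mul_mem hs hs', by rw [map_mul]; exact mul_ne_zero h0 h0',
      ?_⟩
    rw [map_mul, map_add, map_mul, map_mul, ← h1, ← h1']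
    ring
  algebraMap_mem' := by
    intro r
    refine ⟨algebraMap k R r, 1, S.one_mem, by rw [map_one]; exact one_ne_zero, ?_⟩
    rw [map_one, mul_one, AlgHom.commutes]

variable {ψ : R →ₐ[k] L} {S S' : Submonoid R}

lemma mem_QS {x : L} : x ∈ QS ψ S ↔ ∃ a, ∃ s ∈ S, ψ s ≠ 0 ∧ x * ψ s = ψ a := Iff.rfl

lemma map_mem_QS (a : R) : ψ a ∈ QS ψ S :=
  ⟨a, 1, S.one_mem, by rw [map_one]; exact one_ne_zero, by rw [map_one, mul_one]⟩

lemma inv_mem_QS {s : R} (hs : s ∈ S) (h0 : ψ s ≠ 0) : (ψ s)⁻¹ ∈ QS ψ S :=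
  ⟨1, s, hs, h0, by rw [map_one, inv_mul_cancel₀ h0]⟩

lemma QS_mono (h : S ≤ S') : QS ψ S ≤ QS ψ S' := by
  rintro x ⟨a, s, hs, h0, h1⟩
  exact ⟨a, s, h hs, h0, h1⟩

lemma QS_noeth [IsNoetherianRing R] : IsNoetherianRing (QS ψ S) := by
  rw [isNoetherianRing_iff_ideal_fg]
  intro I
  let j : R →+* QS ψ S :=
    { toFun := fun a => ⟨ψ a, map_mem_QS a⟩
      map_one' := Subtype.ext (map_one ψ)
      map_mul' := fun a b => Subtype.ext (map_mul ψ a b)
      map_zero' := Subtype.ext (map_zero ψ)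
      map_add' := fun a b => Subtype.ext (map_add ψ a b) }
  have h1 : I = Ideal.map j (I.comap j) := by
    apply le_antisymm
    · rintro ⟨x, hx⟩ hxI
      obtain ⟨a, s, hs, h0, h2⟩ := hx
      have h3 : j a = ⟨x, ⟨a, s, hs, h0, h2⟩⟩ * j s := Subtype.ext h2.symm
      have h4 : a ∈ I.comap j := by
        rw [Ideal.mem_comap, h3]
        exact I.mul_mem_right _ hxI
      have h5 : (⟨x, ⟨a, s, hs, h0, h2⟩⟩ : QS ψ S) = j a * ⟨(ψ s)⁻¹, inv_mem_QS hs h0⟩ := by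
        apply Subtype.ext
        change x = ψ a * (ψ s)⁻¹
        rw [← h2, mul_inv_cancel_right₀ h0]
      rw [h5]
      exact Ideal.mul_mem_right _ _ (Ideal.mem_map_of_mem j h4)
    · exact Ideal.map_comap_le
  rw [h1]
  exact Ideal.FG.map (IsNoetherian.noetherian (I.comap j)) j

lemma QS_frac (hL : ∀ x : L, ∃ a b : R, ψ b ≠ 0 ∧ x * ψ b = ψ a) (x : L) :
    ∃ a b : QS ψ S, b ≠ 0 ∧ x * b = a := by
  obtain ⟨a, b, hb, h⟩ := hL x
  exact ⟨⟨ψ a, map_mem_QS a⟩, ⟨ψ b, map_mem_QS b⟩, fun h0 => hb (congrArg Subtype.val h0), h⟩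

/-- Adding one denominator. -/
lemma QS_adj {f : R} (hf : ψ f ≠ 0) (hS : ∀ s ∈ S', ∃ t ∈ S, ∃ n : ℕ, s = t * f ^ n)
    (hS1 : S ≤ S') (hf' : f ∈ S') : adj (QS ψ S) (ψ f)⁻¹ = QS ψ S' := by
  apply le_antisymm
  · exact adj_le (QS_mono hS1) (inv_mem_QS hf' hf)
  · rintro x ⟨a, s, hs, h0, h1⟩
    obtain ⟨t, ht, n, rfl⟩ := hS s hs
    have ht0 : ψ t ≠ 0 := by
      intro h
      apply h0
      rw [map_mul, h, zero_mul]
    have h2 : x = ψ a * (ψ t)⁻¹ * ((ψ f)⁻¹) ^ n := by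
      have h3 : ψ f ^ n ≠ 0 := pow_ne_zero n hf
      rw [← h1, map_mul, map_pow, inv_pow]
      field_simp
    rw [h2]
    exact (adj _ _).mul_mem (le_adj _ _ ((QS ψ S).mul_mem (map_mem_QS a) (inv_mem_QS ht ht0)))
      ((adj _ _).pow_mem (self_mem_adj _ _) n)

end qs

section pi

variable {k R L L' : Type u} [Field k] [CommRing R] [Algebra k R] [Field L] [Algebra k L]
  [Field L'] [Algebra k L']

/-- The map of the algebras of fractions. -/
theorem exists_pi (ψ : R →ₐ[k] L) (ψ' : R →ₐ[k] L') (S : Submonoid R)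
    (hS' : ∀ s ∈ S, ψ' s ≠ 0) (hle : ∀ a, ψ a = 0 → ψ' a = 0) :
    ∃ π : QS ψ S →ₐ[k] L', ∀ (x : QS ψ S) (a s : R), s ∈ S → (x : L) * ψ s = ψ a →
      π x * ψ' s = ψ' a := by
  classical
  choose a s hs h0 h1 using fun x : QS ψ S => x.2
  have key : ∀ (x : QS ψ S) (b t : R), t ∈ S → (x : L) * ψ t = ψ b →
      ψ' (a x) / ψ' (s x) * ψ' t = ψ' b := by
    intro x b t ht h
    have h2 : ψ (a x * t - b * s x) = 0 := by
      rw [map_sub, map_mul, map_mul, ← h, ← h1 x]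
      ring
    have h3 := hle _ h2
    rw [map_sub, map_mul, map_mul, sub_eq_zero] at h3
    have h4 := hS' _ (hs x)
    rw [div_mul_eq_mul_div, h3, mul_div_assoc, div_self h4, mul_one]
  have hS0 : ∀ s ∈ S, ψ s ≠ 0 := fun s hs h => hS' s hs (hle s h)
  have uniq : ∀ (x : QS ψ S) (b t : R), t ∈ S → (x : L) * ψ t = ψ b →
      ψ' (a x) / ψ' (s x) = ψ' b / ψ' t := by
    intro x b t ht h
    rw [eq_div_iff (hS' t ht)]
    exact key x b t ht h
  let π : QS ψ S →ₐ[k] L' :=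
    { toFun := fun x => ψ' (a x) / ψ' (s x)
      map_one' := by
        change ψ' (a 1) / ψ' (s 1) = 1
        rw [uniq 1 1 1 S.one_mem (by rw [Subalgebra.coe_one, one_mul]), map_one, div_one]
      map_mul' := by
        intro x y
        change ψ' (a (x * y)) / ψ' (s (x * y)) = ψ' (a x) / ψ' (s x) * (ψ' (a y) / ψ' (s y))
        rw [uniq (x * y) (a x * a y) (s x * s y) (S.mul_mem (hs x) (hs y)) (by
          rw [map_mul, map_mul, ← h1 x, ← h1 y, Subalgebra.coe_mul]; ring), map_mul, map_mul,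
          div_mul_div_comm]
      map_zero' := by
        change ψ' (a 0) / ψ' (s 0) = 0
        rw [uniq 0 0 1 S.one_mem (by rw [Subalgebra.coe_zero, zero_mul, map_zero]), map_zero,
          zero_div]
      map_add' := by
        intro x y
        change ψ' (a (x + y)) / ψ' (s (x + y)) = ψ' (a x) / ψ' (s x) + ψ' (a y) / ψ' (s y)
        rw [uniq (x + y) (a x * s y + s x * a y) (s x * s y) (S.mul_mem (hs x) (hs y)) (by
          rw [map_add, map_mul, map_mul, map_mul, ← h1 x, ← h1 y, Subalgebra.coe_add]; ring),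
          div_add_div _ _ (hS' _ (hs x)) (hS' _ (hs y)), map_add, map_mul, map_mul, map_mul]
      commutes' := by
        intro r
        rw [uniq (algebraMap k _ r) (algebraMap k R r) 1 S.one_mem (by
          rw [map_one, mul_one, AlgHom.commutes]; rfl), map_one, div_one, AlgHom.commutes] }
  exact ⟨π, key⟩

variable {ψ : R →ₐ[k] L} {ψ' : R →ₐ[k] L'} {S : Submonoid R} {π : QS ψ S →ₐ[k] L'}
  (hπ : ∀ (x : QS ψ S) (a s : R), s ∈ S → (x : L) * ψ s = ψ a → π x * ψ' s = ψ' a)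

include hπ

lemma pi_map (a : R) : π ⟨ψ a, map_mem_QS a⟩ = ψ' a := by
  have := hπ ⟨ψ a, map_mem_QS a⟩ a 1 S.one_mem (by rw [map_one, mul_one])
  rwa [map_one, mul_one] at this

lemma pi_range (hS' : ∀ s ∈ S, ψ' s ≠ 0) (hle : ∀ a, ψ a = 0 → ψ' a = 0) :
    π.range = QS ψ' S := by
  apply le_antisymm
  · rintro _ ⟨x, rfl⟩
    obtain ⟨a, s, hs, h0, h1⟩ := x.2
    exact ⟨a, s, hs, hS' s hs, hπ x a s hs h1⟩
  · rintro x ⟨a, s, hs, h0, h1⟩
    have h2 : ψ s ≠ 0 := fun h => h0 (hle s h)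
    refine ⟨⟨ψ a * (ψ s)⁻¹, (QS ψ S).mul_mem (map_mem_QS a) (inv_mem_QS hs h2)⟩, ?_⟩
    have h3 := hπ ⟨ψ a * (ψ s)⁻¹, (QS ψ S).mul_mem (map_mem_QS a) (inv_mem_QS hs h2)⟩ a s hs
      (inv_mul_cancel_right₀ h2 _)
    exact mul_right_cancel₀ h0 (h3.trans h1.symm)

lemma pi_ker (hS' : ∀ s ∈ S, ψ' s ≠ 0) {x : QS ψ S} {a s : R} (hs : s ∈ S)
    (h : (x : L) * ψ s = ψ a) : π x = 0 ↔ ψ' a = 0 := by
  have h1 := hπ x a s hs h
  constructor
  · intro h2
    rw [← h1, h2, zero_mul]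
  · intro h2
    rw [h2] at h1
    exact (mul_eq_zero.1 h1).resolve_right (hS' s hs)

/-- The kernel is minimal. -/
lemma pi_minimal (hS' : ∀ s ∈ S, ψ' s ≠ 0) (hle : ∀ a, ψ a = 0 → ψ' a = 0) {f : R}
    (hf : ψ' f = 0)
    (hmin : ∀ q : Ideal R, q.IsPrime → (∀ a, ψ a = 0 → a ∈ q) → f ∈ q →
      (∀ a ∈ q, ψ' a = 0) → ∀ a, ψ' a = 0 → a ∈ q) :
    RingHom.ker π.toRingHom ∈
      (Ideal.span {(⟨ψ f, map_mem_QS f⟩ : QS ψ S)}).minimalPrimes := by
  have hfk : (⟨ψ f, map_mem_QS f⟩ : QS ψ S) ∈ RingHom.ker π.toRingHom := by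
    rw [RingHom.mem_ker]
    exact (pi_map hπ f).trans hf
  refine ⟨⟨RingHom.ker_isPrime _, ?_⟩, ?_⟩
  · rw [Ideal.span_singleton_le_iff_mem]
    exact hfk
  · rintro q' ⟨hq', hfq⟩ hle'
    let j : R →+* QS ψ S :=
      { toFun := fun a => ⟨ψ a, map_mem_QS a⟩
        map_one' := Subtype.ext (map_one ψ)
        map_mul' := fun a b => Subtype.ext (map_mul ψ a b)
        map_zero' := Subtype.ext (map_zero ψ)
        map_add' := fun a b => Subtype.ext (map_add ψ a b) }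
    have h1 := hmin (q'.comap j) (hq'.comap j) (by
      intro a ha
      rw [Ideal.mem_comap]
      have : j a = 0 := Subtype.ext ha
      rw [this]
      exact q'.zero_mem) (by
      rw [Ideal.mem_comap]
      exact hfq (Ideal.mem_span_singleton_self _)) (by
      intro a ha
      have h2 := hle' (Ideal.mem_comap.1 ha)
      rw [RingHom.mem_ker] at h2
      exact (pi_map hπ a).symm.trans h2)
    intro x hx
    obtain ⟨a, s, hs, h0, h2⟩ := x.2
    have h3 : ψ' a = 0 := (pi_ker hπ hS' hs h2).1 (RingHom.mem_ker.1 hx)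
    have h4 : j a ∈ q' := Ideal.mem_comap.1 (h1 a h3)
    have h5 : x = j a * ⟨(ψ s)⁻¹, inv_mem_QS hs h0⟩ := by
      apply Subtype.ext
      change (x : L) = ψ a * (ψ s)⁻¹
      rw [← h2, mul_inv_cancel_right₀ h0]
    rw [h5]
    exact q'.mul_mem_right _ h4

end pi

section der

variable {k R L L' : Type u} [Field k] [CommRing R] [Algebra k R] [Field L] [Algebra k L]
  [Field L'] [Algebra k L']

/-- Derivations of `R` which preserve the kernel extend to the field of fractions. -/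
theorem exists_der_L (ψ : R →ₐ[k] L) (hL : ∀ x : L, ∃ a b : R, ψ b ≠ 0 ∧ x * ψ b = ψ a)
    (δ : Derivation k R R) (hδ : ∀ a, ψ a = 0 → ψ (δ a) = 0) :
    ∃ D : Derivation k L L, ∀ a, D (ψ a) = ψ (δ a) := by
  have hsurj : Function.Surjective ψ.rangeRestrict := ψ.rangeRestrict_surjective
  let δ' : Derivation k ψ.range ψ.range := Derivation.liftOfSurjective hsurj (d := δ) (by
    intro x hx
    apply Subtype.ext
    exact hδ x (congrArg Subtype.val hx))
  have hδ' : ∀ a, δ' (ψ.rangeRestrict a) = ψ.rangeRestrict (δ a) := fun a =>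
    Derivation.liftOfSurjective_apply hsurj _ a
  have hfr : IsFractionRing ψ.range L := by
    refine IsFractionRing.of_field (R := ψ.range) (K := L) ?_
    intro z
    obtain ⟨a, b, hb, h⟩ := hL z
    refine ⟨⟨ψ a, a, rfl⟩, ⟨ψ b, b, rfl⟩, ?_⟩
    change z = ψ a / ψ b
    rw [eq_div_iff hb, h]
  obtain ⟨D, hD⟩ := exists_der_frac (K := L) δ'
  refine ⟨D, fun a => ?_⟩
  have h1 := hD (ψ.rangeRestrict a)
  rw [hδ'] at h1
  exact h1

/-- The values of a derivation on fractions. -/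
lemma der_frac {ψ : R →ₐ[k] L} {δ : Derivation k R R} {D : Derivation k L L}
    (hD : ∀ a, D (ψ a) = ψ (δ a)) {x : L} {a s : R} (h0 : ψ s ≠ 0) (h : x * ψ s = ψ a) :
    D x * ψ (s * s) = ψ (δ a * s - a * δ s) := by
  have h1 := congrArg D h
  rw [Derivation.leibniz, hD, hD] at h1
  simp only [smul_eq_mul] at h1
  rw [map_sub, map_mul, map_mul, map_mul, ← h1, ← h]
  ring

lemma der_QS {ψ : R →ₐ[k] L} {S : Submonoid R} {δ : Derivation k R R} {D : Derivation k L L}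
    (hD : ∀ a, D (ψ a) = ψ (δ a)) : ∀ x ∈ QS ψ S, D x ∈ QS ψ S := by
  rintro x ⟨a, s, hs, h0, h⟩
  exact ⟨_, s * s, S.mul_mem hs hs, by rw [map_mul]; exact mul_ne_zero h0 h0, der_frac hD h0 h⟩

lemma der_pi {ψ : R →ₐ[k] L} {ψ' : R →ₐ[k] L'} {S : Submonoid R} {π : QS ψ S →ₐ[k] L'}
    (hπ : ∀ (x : QS ψ S) (a s : R), s ∈ S → (x : L) * ψ s = ψ a → π x * ψ' s = ψ' a)
    (hS' : ∀ s ∈ S, ψ' s ≠ 0)
    {δ : Derivation k R R} {D : Derivation k L L} (hD : ∀ a, D (ψ a) = ψ (δ a))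
    {D' : Derivation k L' L'} (hD' : ∀ a, D' (ψ' a) = ψ' (δ a)) (q : QS ψ S)
    (h : D q ∈ QS ψ S) : D' (π q) = π ⟨D q, h⟩ := by
  obtain ⟨a, s, hs, h0, h1⟩ := q.2
  have h2 := hπ q a s hs h1
  have h3 := der_frac hD h0 h1
  have h4 := der_frac hD' (hS' s hs) h2
  have h5 := hπ ⟨D q, h⟩ _ (s * s) (S.mul_mem hs hs) h3
  have h6 : ψ' (s * s) ≠ 0 := by
    rw [map_mul]
    exact mul_ne_zero (hS' s hs) (hS' s hs)
  exact mul_right_cancel₀ h6 (h4.trans h5.symm)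

/-- A derivation with `δ f = χ f` preserves the kernel. -/
lemma der_ker {ψ : R →ₐ[k] L} {ψ' : R →ₐ[k] L'} {S : Submonoid R} {π : QS ψ S →ₐ[k] L'}
    (hπ : ∀ (x : QS ψ S) (a s : R), s ∈ S → (x : L) * ψ s = ψ a → π x * ψ' s = ψ' a)
    (hS' : ∀ s ∈ S, ψ' s ≠ 0) (hle : ∀ a, ψ a = 0 → ψ' a = 0)
    {δ : Derivation k R R} (hδ : ∀ a, ψ a = 0 → ψ (δ a) = 0) {f : R} {χ : k}
    (hf : δ f = χ • f) (hψf : ψ' f = 0)
    (hgen : ∀ x : QS ψ S, π x = 0 → ∃ e : QS ψ S, π e ≠ 0 ∧ ⟨ψ f, map_mem_QS f⟩ ∣ e * x) :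
    ∀ a, ψ' a = 0 → ψ' (δ a) = 0 := by
  intro a ha
  obtain ⟨e, he, y, hy⟩ := hgen ⟨ψ a, map_mem_QS a⟩ ((pi_map hπ a).trans ha)
  obtain ⟨b, s, hs, h0, h1⟩ := e.2
  obtain ⟨c, t, ht, h0', h1'⟩ := y.2
  have hy' : (e : L) * ψ a = ψ f * y := congrArg Subtype.val hy
  -- `b t a = f c s` modulo the kernel
  have h2 : ψ (b * t * a - f * c * s) = 0 := by
    have : ψ (b * t * a - f * c * s) =
        ((e : L) * ψ a - ψ f * y) * (ψ s * ψ t) := by
      simp only [map_sub, map_mul, ← h1, ← h1']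
      ring
    rw [this, hy', sub_self, zero_mul]
  have h3 := hle _ (hδ _ h2)
  have h4 : δ (b * t * a - f * c * s) =
      b * t * δ a + a * δ (b * t) - (f * δ (c * s) + c * s * (χ • f)) := by
    rw [map_sub, Derivation.leibniz, mul_assoc f c s, Derivation.leibniz δ f, hf]
    simp only [smul_eq_mul]
  rw [h4] at h3
  simp only [map_sub, map_add, map_mul, ha, hψf, zero_mul, add_zero, map_smul, smul_zero,
    mul_zero, sub_zero] at h3
  have hb : ψ' b ≠ 0 := by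
    intro hb
    exact he ((pi_ker hπ hS' hs h1).2 hb)
  rcases mul_eq_zero.1 h3 with h5 | h5
  · exact absurd h5 (mul_ne_zero hb (hS' t ht))
  · exact h5

end der

end Pool.Agent.W558
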