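import Pool.Agent.W558.S2.Defs2
import Pool.Agent.W558.Atlas

set_option autoImplicit false
set_option linter.unusedVariables false

universe u

open Polynomial AlgebraicGeometry CategoryTheory Pool.Agent.H920R2

namespace Pool.Agent.W558

/-- NZ: the divisor `y` has no component which lies over a curve of the base. -/
def S2_nz : Prop := ∀ (k K : Type u) [Field k] [Field K] [Algebra k K] [PerfectField k]
  (I : Type) [Fintype I] (A B : Subalgebra k K) (hBA : B ≤ A) (x : I → K)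
  (hx : ∀ i, x i ∈ A) (y b : K) (hy : y ∈ A) (hb : b ∈ B), y ≠ 0 → b ≠ 0 →
  (∀ i, x i ≠ 0) →
  Algebra.Smooth k A → Algebra.FiniteType k B → SNC A (fun o : Option I => o.elim y x) →
  (∃ N : ℕ, (∏ i, x i) ^ N / b ∈ A) →
  (∀ (κ : Type u) [Field κ] [Algebra k κ] (φ : A →ₐ[k] κ) (φ0 : B →ₐ[k] κ),
    (∀ c (hc : c ∈ B), φ ⟨c, hBA hc⟩ = φ0 ⟨c, hc⟩) → φ0 ⟨b, hb⟩ ≠ 0 → ∀ D0 : TV φ0,
    ∃ D : TV φ, ∀ c (hc : c ∈ B), D.D ⟨c, hBA hc⟩ = D0.D ⟨c, hc⟩) →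
  (∀ (κ : Type u) [Field κ] [Algebra k κ] (φ : A →ₐ[k] κ), φ ⟨y, hy⟩ = 0 →
    ∃ D : TV φ, (∀ c (hc : c ∈ B), D.D ⟨c, hBA hc⟩ = 0) ∧ D.D ⟨y, hy⟩ ≠ 0) →
  ∀ c ∈ B, c ≠ 0 → ∀ a ∈ A, c * a / y ∈ A → a / y ∈ A

/-- BASE: the product of a model of the base field with a compactified torus. -/
def S2_base : Prop := ∀ (k E K : Type u) [Field k] [Field E] [Field K] [Algebra k E]
  [Algebra k K] [Algebra E K] [IsScalarTower k E K] (T I G : Type) [Finite T] [Fintype I]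
  (M : LM (⊥ : Subalgebra k E) ⊤ T I) (h : G → E) (Γ : G → I → ℤ), Fn M h Γ →
  (∀ t (x : E), ∃ a ∈ M.A t, ∃ b ∈ M.A t, b ≠ 0 ∧ x = a * b⁻¹) →
  ∀ (r : ℕ) (z : Fin r → K), AlgebraicIndependent E z →
  Sta (Sum.elim (fun b => algebraMap E K (h b)) z) (Lau (k := k) (E := E) z)
    {D : Derivation k K K | (∀ x : E, D (algebraMap E K x) = 0) ∧
      ∀ j, ∃ χ : k, D (z j) = χ • z j}

/-- PRINC: principalization preserves bases. -/
def S2_princ : Prop := ∀ (k K : Type u) [Field k] [Field K] [Algebra k K] (T I G : Type)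
  [Finite T] [Fintype I] [DecidableEq I] [Finite G] (M : LM (⊥ : Subalgebra k K) ⊤ T I)
  (g : G → K) (Γ : G → I → ℤ),
  ∃ (T' I' : Type) (_ : Finite T') (_ : Fintype I') (_ : DecidableEq I')
    (M' : LM (⊥ : Subalgebra k K) ⊤ T' I') (Γ' : G → I' → ℤ), Ext3 g M Γ M' Γ' ∧
    ∀ a b, Cmp M' Γ' a b

/-- The hypothesis on the weights of the monomials. -/
def SepD {k K : Type u} [Field k] [Field K] [Algebra k K] {ι : Type}
    (Ds : Set (Derivation k K K)) (m : ι → K) : Prop :=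
  ∀ i, ∃ D ∈ Ds, ∃ l : k, D (m i) = (l + 1) • m i ∧ ∀ j, j ≠ i → D (m j) = l • m j

/-- ADD: adding a function. -/
def S2_add : Prop := ∀ (k K : Type u) [Field k] [Field K] [Algebra k K] (G : Type) [Fintype G]
  (g : G → K) (Q : Subalgebra k K) (Ds : Set (Derivation k K K)), Sta g Q Ds →
  ∀ (ι : Type) [Fintype ι] [Nonempty ι] (e : ι → G → ℤ) (c : ι → k) (f : K),
  (∀ i, c i ≠ 0) → f = ∑ i, c i • ∏ a, g a ^ e i a → f ≠ 0 →
  SepD Ds (fun i => ∏ a, g a ^ e i a) →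
  Sta (fun o : Option G => o.elim f g) (adj Q f⁻¹) {D ∈ Ds | ∃ χ : k, D f = χ • f}

/-- CUT: restriction to the divisor of a function. -/
def S2_cut : Prop := ∀ (k K L : Type u) [Field k] [Field K] [Algebra k K] [Field L]
  [Algebra k L] [PerfectField k] (G : Type) [Fintype G] (g : G → K) (Q : Subalgebra k K)
  (Ds : Set (Derivation k K K)), Sta g Q Ds → IsNoetherianRing Q →
  (∀ x : K, ∃ a b : Q, b ≠ 0 ∧ x * b = a) →
  ∀ (ι : Type) [Fintype ι] [Nonempty ι] (e : ι → G → ℤ) (c : ι → k) (f : Q),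
  (∀ i, c i ≠ 0) → (f : K) = ∑ i, c i • ∏ a, g a ^ e i a → (f : K) ≠ 0 →
  SepD Ds (fun i => ∏ a, g a ^ e i a) →
  ∀ π : Q →ₐ[k] L, (∀ q, π q = 0 ↔ f ∣ q) → (∀ x : L, ∃ a b : Q, π b ≠ 0 ∧ x * π b = π a) →
  ∀ g' : G → L, (∀ a (h : g a ∈ Q), g' a = π ⟨g a, h⟩) →
  Sta g' π.range {D' | ∃ D ∈ Ds, (∃ χ : k, D f = χ • (f : K)) ∧
    ∀ (q : Q) (h : D q ∈ Q), D' (π q) = π ⟨D q, h⟩}

/-- MONO: changing the functions. -/
def S2_mono : Prop := ∀ (k K : Type u) [Field k] [Field K] [Algebra k K] (G G' : Type)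
  [Fintype G] (g : G → K) (Q Q' : Subalgebra k K) (Ds Ds' : Set (Derivation k K K)),
  Sta g Q Ds → ∀ (e : G' → G → ℤ), Q = Q' → Ds' ⊆ Ds →
  Sta (fun b => ∏ a, g a ^ e b a) Q' Ds'

/-- FINR: resolution of algebras generated by monomials on a stage. -/
def S2_finr : Prop := ∀ (k K : Type u) [Field k] [Field K] [Algebra k K] (G : Type) [Fintype G]
  (g : G → K) (Q : Subalgebra k K) (Ds : Set (Derivation k K K)), Sta g Q Ds →
  ∀ (G' : Type) [Finite G'] (e : G' → G → ℤ) (A : Type u) [CommRing A] [IsDomain A]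
  [Algebra k A] (j : A →ₐ[k] K), Function.Injective j →
  j.range = Algebra.adjoin k (Set.range fun b => ∏ a, g a ^ e b a) →
  (∀ x : K, ∃ a b : A, b ≠ 0 ∧ x = j a / j b) →
  HasResolution (X := Spec (CommRingCat.of A)) (Spec.map (CommRingCat.ofHom (algebraMap k A)))

end Pool.Agent.W558
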