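import Pool.Agent.W558.S2.CI3
import Pool.Agent.W558.S.All
import Pool.Agent.W63.R558.Finr
import Pool.Agent.W417.Tor.Base
import Pool.Agent.W973.CUT2

set_option autoImplicit false
set_option linter.unusedVariables false

universe u

open AlgebraicGeometry CategoryTheory Pool.Agent.H920R2 MvPolynomial

namespace Pool.Agent.W558

/-- The degree modulo `p` of the monomial `∏ s, X s ^ a s * ∏ l, f l ^ e l`, where the polynomial
`f l` has the degree `deg l`. -/
def ciDegree {p n r : ℕ} (deg : Fin r → Fin n → ZMod p) (a : Fin n → ℕ)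
    (e : Fin r → ℕ) : Fin n → ZMod p :=
  fun s => a s + ∑ l, e l * deg l s

theorem ci_main (hloc : S2_loc.{u}) (p : ℕ) [Fact p.Prime] (k B : Type u) [Field k]
    [PerfectField k] [CharP k p] [CommRing B] [IsDomain B] [Algebra k B] [Algebra.FiniteType k B]
    (h2 : Algebra.trdeg k (FractionRing B) = 2) (hM : HasModel k (FractionRing B))
    (n r : ℕ) (ι : Fin r → Type) [∀ j, Fintype (ι j)] (i₀ : ∀ j, ι j)
    (b : ∀ j, ι j → B) (hb : ∀ j i, b j i ≠ 0)
    (a : ∀ j, ι j → Fin n → ℕ) (e : ∀ j, ι j → Fin r → ℕ) (J : Set (Fin r))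
    (he : ∀ j i l, (j ≤ l ∨ l ∈ J) → e j i l = 0)
    (f : Fin r → MvPolynomial (Fin n) B)
    (hf : ∀ j, f j = ∑ i, C (b j i) * ((∏ s, X s ^ a j i s) * ∏ l, f l ^ e j i l))
    (deg : Fin r → Fin n → ZMod p)
    (hdeg : ∀ j, deg j = ciDegree deg (a j (i₀ j)) (e j (i₀ j)))
    (hind : LinearIndependent (ZMod p) fun q : (j : Fin r) × {i : ι j // i ≠ i₀ j} =>
        ciDegree deg (a q.1 q.2) (e q.1 q.2) - deg q.1)
    (P : Ideal (MvPolynomial (Fin n) B)) (hP : P ∈ (Ideal.span (f '' J)).minimalPrimes)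
    (hPB : ∀ b : B, b ≠ 0 → C b ∉ P) (hPX : ∀ s, X s ∉ P) (hPf : ∀ l, l ∉ J → f l ∉ P) :
    IsResolvableVariety (X := Spec (CommRingCat.of (MvPolynomial (Fin n) B ⧸ P)))
      (Spec.map (CommRingCat.ofHom (algebraMap k (MvPolynomial (Fin n) B ⧸ P)))) := by
  classical
  have hPp : P.IsPrime := hP.1.1
  have hft1 : Algebra.FiniteType k (MvPolynomial (Fin n) B) :=
    Algebra.FiniteType.trans (S := B) inferInstance inferInstance
  have hft : Algebra.FiniteType k (MvPolynomial (Fin n) B ⧸ P) :=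
    Algebra.FiniteType.of_surjective (Ideal.Quotient.mkₐ k P) (Ideal.Quotient.mkₐ_surjective k P)
  have hNB : IsNoetherianRing B := Algebra.FiniteType.isNoetherianRing k B
  obtain ⟨s, hs⟩ := (inferInstance : Algebra.FiniteType k B).out
  let s' := s.erase 0
  let N := s'.card
  let gen : Fin N → B := fun i => (s'.equivFin.symm i).1
  have hgen0 : ∀ i, gen i ≠ 0 := fun i =>
    (Finset.mem_erase.1 (s'.equivFin.symm i).2).1
  have hgen1 : ∀ x ∈ s, x = 0 ∨ ∃ i, gen i = x := by
    intro x hx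
    by_cases h0 : x = 0
    · exact Or.inl h0
    · right
      refine ⟨s'.equivFin ⟨x, Finset.mem_erase.2 ⟨h0, hx⟩⟩, ?_⟩
      change (s'.equivFin.symm (s'.equivFin _)).1 = x
      rw [Equiv.symm_apply_apply]
  let S : CIData B p n r :=
    { ι := ι, fin := inferInstance, H := (Σ j, ι j) ⊕ Fin N, finH := inferInstance
      h := Sum.elim (fun q => b q.1 q.2) gen, i0 := i₀, c := fun j i => Sum.inl ⟨j, i⟩
      a := a, e := e, f := f, deg := deg, J := J }
  have hS : S.Ok :=
    { h0 := by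
        rintro (q | i)
        · exact hb q.1 q.2
        · exact hgen0 i
      e0 := he
      hf := hf
      hdeg := fun j s => congrFun (hdeg j) s
      ind := hind }
  obtain ⟨s0⟩ := all_init k (FractionRing B) hM
  obtain ⟨s1, Γ, hΓ⟩ := all_log k (FractionRing B) h2 s0 S.H
    (fun t => algebraMap B (FractionRing B) (S.h t)) (fun t h => hS.h0 t
      ((FaithfulSMul.algebraMap_eq_zero_iff B (FractionRing B)).1 h))
  refine isResolvableVariety_spec (CIData.hasResolution (k := k) hS Pool.Agent.W417.Tor.main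
    Pool.Agent.W63.R558Finr.mono (Pool.Agent.W973.CUT2.main hloc princ3_main)
    Pool.Agent.W63.R558Finr.main s1.M Γ hΓ (fun t => (s1.sf t).fr) ?_ P hP hPB hPX hPf)
  rw [eq_top_iff, ← hs]
  refine Algebra.adjoin_le ?_
  intro x hx
  rcases hgen1 x hx with rfl | ⟨i, rfl⟩
  · exact Subalgebra.zero_mem _
  · exact Algebra.subset_adjoin ⟨Sum.inr i, rfl⟩

end Pool.Agent.W558
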