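import Pool.Agent.W558.Stage

set_option autoImplicit false
set_option linter.unusedVariables false
set_option linter.unusedSimpArgs false
set_option linter.unusedSectionVars false

universe u

open Polynomial

namespace Pool.Agent.W558

section bas

variable {k K : Type u} [Field k] [Field K] [Algebra k K] {T T' I I' : Type}

/-- The model `M` lies over a base, with charts `B t ≤ M.A t` killed by the derivations `Ds`, such
that it is smooth over the base, relative to the boundary, outside of `b t = 0`. The algebra `Q`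
is the ring of functions on the common open part of all charts over the generic point of the
base. -/
structure Bas [Fintype I] (Q : Subalgebra k K) (Ds : Set (Derivation k K K))
    (M : LM (⊥ : Subalgebra k K) ⊤ T I) (B : T → Subalgebra k K) (b : T → K) : Prop where
  A : ∀ t, M.A t ≤ Q
  x : ∀ t i, (M.x t i)⁻¹ ∈ Q
  BA : ∀ t, B t ≤ M.A t
  ft : ∀ t, Algebra.FiniteType k (B t)
  bB : ∀ t, b t ∈ B t
  b0 : ∀ t, b t ≠ 0
  DB : ∀ D ∈ Ds, ∀ t, ∀ c ∈ B t, D c = 0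
  BQ : ∀ t, ∀ c ∈ B t, c ≠ 0 → c⁻¹ ∈ Q
  cof : ∀ t, ∀ q ∈ Q, ∃ c ∈ B t, ∃ N : ℕ, c ≠ 0 ∧ c * (∏ i, M.x t i) ^ N * q ∈ M.A t
  bx : ∀ t, ∃ N : ℕ, (∏ i, M.x t i) ^ N / b t ∈ M.A t
  sub : ∀ t (κ : Type u) [Field κ] [Algebra k κ] (φ : M.A t →ₐ[k] κ)
    (φ0 : B t →ₐ[k] κ), (∀ c (hc : c ∈ B t), φ ⟨c, BA t hc⟩ = φ0 ⟨c, hc⟩) →
    φ0 ⟨b t, bB t⟩ ≠ 0 → ∀ D0 : TV φ0, ∃ D : TV φ,
      (∀ c (hc : c ∈ B t), D.D ⟨c, BA t hc⟩ = D0.D ⟨c, hc⟩) ∧
      ∀ i, φ ⟨M.x t i, M.xA t i⟩ = 0 → D.D ⟨M.x t i, M.xA t i⟩ = 0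

/-- A stage: there is a model on which the functions `g a` are locally monomials, the derivations
in `Ds` are logarithmic and which has a base. -/
def Sta {G : Type} (g : G → K) (Q : Subalgebra k K) (Ds : Set (Derivation k K K)) : Prop :=
  (∀ a, g a ∈ Q ∧ (g a)⁻¹ ∈ Q) ∧ (∀ D ∈ Ds, ∀ q ∈ Q, D q ∈ Q) ∧
  (∀ D ∈ Ds, ∀ a, ∃ χ : k, D (g a) = χ • g a) ∧
  ∃ (T I : Type) (_ : Finite T) (_ : Fintype I) (_ : DecidableEq I)
    (M : LM (⊥ : Subalgebra k K) ⊤ T I) (Γ : G → I → ℤ) (B : T → Subalgebra k K) (b : T → K),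
    Fn M g Γ ∧ (∀ D ∈ Ds, LD M D) ∧ Bas Q Ds M B b

/-- `Ext` together with the preservation of bases. -/
def Ext3 [Fintype I] [Fintype I'] {G : Type} (g : G → K)
    (M : LM (⊥ : Subalgebra k K) ⊤ T I) (Γ : G → I → ℤ)
    (M' : LM (⊥ : Subalgebra k K) ⊤ T' I') (Γ' : G → I' → ℤ) : Prop :=
  Ext g M Γ M' Γ' ∧ ∀ (Q : Subalgebra k K) (Ds : Set (Derivation k K K))
    (B : T → Subalgebra k K) (b : T → K), Bas Q Ds M B b →
    ∃ (B' : T' → Subalgebra k K) (b' : T' → K), Bas Q Ds M' B' b'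

lemma Ext3.refl [Fintype I] {G : Type} (g : G → K) (M : LM (⊥ : Subalgebra k K) ⊤ T I)
    (Γ : G → I → ℤ) : Ext3 g M Γ M Γ := ⟨Ext.refl g M Γ, fun _ _ B b h => ⟨B, b, h⟩⟩

lemma Ext3.trans [Fintype I] [Fintype I'] {G T'' I'' : Type} [Fintype I''] {g : G → K}
    {M : LM (⊥ : Subalgebra k K) ⊤ T I} {Γ : G → I → ℤ}
    {M' : LM (⊥ : Subalgebra k K) ⊤ T' I'} {Γ' : G → I' → ℤ}
    {M'' : LM (⊥ : Subalgebra k K) ⊤ T'' I''} {Γ'' : G → I'' → ℤ}
    (h : Ext3 g M Γ M' Γ') (h' : Ext3 g M' Γ' M'' Γ'') : Ext3 g M Γ M'' Γ'' :=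
  ⟨h.1.trans h'.1, fun Q Ds B b hB => by
    obtain ⟨B', b', h1⟩ := h.2 Q Ds B b hB
    exact h'.2 Q Ds B' b' h1⟩

/-- The algebra generated by the field `E` and the elements `z j` and their inverses. -/
def Lau {E : Type u} [Field E] [Algebra k E] [Algebra E K] [IsScalarTower k E K] {r : ℕ}
    (z : Fin r → K) : Subalgebra k K :=
  Algebra.adjoin k (Set.range (algebraMap E K) ∪ Set.range z ∪ Set.range fun j => (z j)⁻¹)

end bas

end Pool.Agent.W558
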