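import Pool.Agent.W558.S2.Stms2
import Pool.Agent.W558.Princ

set_option autoImplicit false
set_option linter.unusedVariables false
set_option linter.unusedSimpArgs false
set_option linter.unusedSectionVars false

universe u

open Polynomial

namespace Pool.Agent.W558

section lrg

variable {k K : Type u} [Field k] [Field K] [Algebra k K] {T T' I I' : Type}

lemma prod_bX_sq [Fintype I] [DecidableEq I] (M : LM (⊥ : Subalgebra k K) ⊤ T I) {i j : I}
    (hij : i ≠ j) (p : T × Bool) :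
    (∏ o, bX M i j p o) ^ 2 = (∏ l, M.x p.1 l) * ∏ l, bX M i j p (some l) := by
  have h1 : (∏ l, M.x p.1 l) = (∏ l, bX M i j p (some l)) * (bX M i j p none) ^ 2 := by
    have h2 : ∀ l, M.x p.1 l = bX M i j p (some l) *
        ((if l = i then bX M i j p none else 1) * (if l = j then bX M i j p none else 1)) := by
      intro l
      rw [x_eq_bX M hij p l]
      congr 1
      by_cases h3 : l = i
      · have h4 : l ≠ j := fun h => hij (h3.symm.trans h)
        simp [h3, hij]
      · by_cases h4 : l = j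
        · simp [h4, hij.symm]
        · simp [h3, h4]
    rw [Finset.prod_congr rfl fun l _ => h2 l, Finset.prod_mul_distrib,
      Finset.prod_mul_distrib, Finset.prod_ite_eq' Finset.univ i, Finset.prod_ite_eq' Finset.univ j]
    simp only [Finset.mem_univ, if_true]
    ring
  rw [h1, Fintype.prod_option]
  ring

lemma bas_blowup [Fintype I] [DecidableEq I] (M : LM (⊥ : Subalgebra k K) ⊤ T I) {i j : I}
    (hij : i ≠ j) (M' : LM (⊥ : Subalgebra k K) ⊤ (T × Bool) (Option I)) (hA : M'.A = bA M i j)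
    (hx : M'.x = bX M i j) {Q : Subalgebra k K} {Ds : Set (Derivation k K K)}
    {B : T → Subalgebra k K} {b : T → K} (h : Bas Q Ds M B b) :
    Bas Q Ds M' (fun p => B p.1) (fun p => b p.1) where
  A := by
    have hxQ : ∀ t l, M.x t l ∈ Q := fun t l => h.A t (M.xA t l)
    rw [hA]
    intro p
    refine adj_le (h.A p.1) ?_
    rw [vv, div_eq_mul_inv]
    exact Q.mul_mem (hxQ _ _) (h.x _ _)
  x := by
    have hxQ : ∀ t l, M.x t l ∈ Q := fun t l => h.A t (M.xA t l)
    rw [hx]
    rintro p (_ | l)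
    · exact h.x _ _
    · simp only [bX, bx]
      split_ifs
      · rw [inv_div, div_eq_mul_inv]
        exact Q.mul_mem (hxQ _ _) (h.x _ _)
      · rw [inv_one]
        exact Q.one_mem
      · exact h.x _ _
  BA := fun p => by
    rw [hA]
    exact (h.BA p.1).trans (le_bA M i j p)
  ft := fun p => h.ft p.1
  bB := fun p => h.bB p.1
  b0 := fun p => h.b0 p.1
  DB := fun D hD p => h.DB D hD p.1
  BQ := fun p => h.BQ p.1
  cof := fun p q hq => by
    obtain ⟨c, hc, N, hc0, h1⟩ := h.cof p.1 q hq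
    refine ⟨c, hc, 2 * N, hc0, ?_⟩
    rw [hA, hx, pow_mul, prod_bX_sq M hij p, mul_pow]
    have e : c * ((∏ l, M.x p.1 l) ^ N * (∏ l, bX M i j p (some l)) ^ N) * q =
        (c * (∏ l, M.x p.1 l) ^ N * q) * (∏ l, bX M i j p (some l)) ^ N := by ring
    rw [e]
    exact (bA M i j p).mul_mem (le_bA M i j p h1) ((bA M i j p).pow_mem
      ((bA M i j p).prod_mem fun l _ => bX_mem M i j hij p _) N)
  bx := fun p => by
    obtain ⟨N, h1⟩ := h.bx p.1
    refine ⟨2 * N, ?_⟩
    rw [hA, hx, pow_mul, prod_bX_sq M hij p, mul_pow]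
    have e : ((∏ l, M.x p.1 l) ^ N * (∏ l, bX M i j p (some l)) ^ N) / b p.1 =
        ((∏ l, M.x p.1 l) ^ N / b p.1) * (∏ l, bX M i j p (some l)) ^ N := by ring
    rw [e]
    exact (bA M i j p).mul_mem (le_bA M i j p h1) ((bA M i j p).pow_mem
      ((bA M i j p).prod_mem fun l _ => bX_mem M i j hij p _) N)
  sub := by
    intro p κ _ _ φ φ0 hφ hb D0
    have hle : M.A p.1 ≤ M'.A p := by rw [hA]; exact le_bA M i j p
    obtain ⟨D, hD1, hD2⟩ := h.sub p.1 κ (φ.comp (Subalgebra.inclusion hle)) φ0 hφ hb D0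
    have hsm := M.sm p.1
    have ht := (M.snc p.1).trans (nu_ne_de i j hij p.2) (M.xA p.1 _) (M.xA p.1 _)
    have hA' : M'.A p = adj (M.A p.1) (M.x p.1 (nu i j p.2) / M.x p.1 (de i j p.2)) := by
      rw [hA]; rfl
    have hxp : M'.x p = bX M i j p := by rw [hx]
    have key : ∀ (A' : Subalgebra k K)
        (hA' : A' = adj (M.A p.1) (M.x p.1 (nu i j p.2) / M.x p.1 (de i j p.2)))
        (hle : M.A p.1 ≤ A') (φ : A' →ₐ[k] κ)
        (D : TV (φ.comp (Subalgebra.inclusion hle)))
        (hD2 : ∀ i, φ ⟨M.x p.1 i, hle (M.xA p.1 i)⟩ = 0 → D.D ⟨M.x p.1 i, M.xA p.1 i⟩ = 0)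
        (hm : ∀ o, bX M i j p o ∈ A'), ∃ E : TV φ,
        (∀ c (hc : c ∈ M.A p.1), E.D ⟨c, hle hc⟩ = D.D ⟨c, hc⟩) ∧
        ∀ o, φ ⟨bX M i j p o, hm o⟩ = 0 → E.D ⟨bX M i j p o, hm o⟩ = 0 := by
      intro A' hA' hle φ D hD2 hm
      subst hA'
      have hv := self_mem_adj (M.A p.1) (M.x p.1 (nu i j p.2) / M.x p.1 (de i j p.2))
      set y : M.A p.1 := ⟨M.x p.1 (de i j p.2), M.xA p.1 _⟩ with hy
      set z : M.A p.1 := ⟨M.x p.1 (nu i j p.2), M.xA p.1 _⟩ with hz
      have hy0 : (y : K) ≠ 0 := M.x0 _ _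
      let φA : M.A p.1 →ₐ[k] κ := φ.comp (Subalgebra.inclusion hle)
      have hrel : φA y * φ ⟨_, hv⟩ = φA z := by
        change φ ⟨y, hle y.2⟩ * φ ⟨_, hv⟩ = φ ⟨z, hle z.2⟩
        rw [← map_mul]
        congr 1
        apply Subtype.ext
        change (y : K) * ((z : K) / (y : K)) = z
        field_simp
      obtain ⟨E, hE1, hE2⟩ := TV.ext_adj (x := z) (y := y) hy0 ht φ φA (fun a => rfl) D
        ((D.D z - φ ⟨_, hv⟩ * D.D y) / φA y) (by
          by_cases h0 : φA y = 0
          · have h1 : φA z = 0 := by rw [← hrel, h0, zero_mul]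
            have h2 : D.D y = 0 := hD2 _ h0
            have h3 : D.D z = 0 := hD2 _ h1
            rw [h2, h3, h0]
            ring
          · change φA y * ((D.D z - φ ⟨_, hv⟩ * D.D y) / φA y) + φ ⟨_, hv⟩ * D.D y = D.D z
            field_simp
            ring)
      refine ⟨E, fun c hc => hE1 ⟨c, hc⟩, ?_⟩
      rintro (_ | l) hl
      · exact (hE1 y).trans (hD2 _ hl)
      · have hbx : ∀ l, bX M i j p (some l) = if l = nu i j p.2 then
            M.x p.1 (nu i j p.2) / M.x p.1 (de i j p.2) else if l = de i j p.2 then 1 else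
            M.x p.1 l := fun l => rfl
        by_cases h4 : l = nu i j p.2
        · have e1 : bX M i j p (some l) = M.x p.1 (nu i j p.2) / M.x p.1 (de i j p.2) := by
            rw [hbx, if_pos h4]
          have e2 : (⟨bX M i j p (some l), hm (some l)⟩ : adj (M.A p.1)
            (M.x p.1 (nu i j p.2) / M.x p.1 (de i j p.2))) = ⟨_, hv⟩ := Subtype.ext e1
          rw [e2] at hl ⊢
          refine hE2.trans ?_
          have h5 : φA z = 0 := by rw [← hrel, hl, mul_zero]
          have h6 : D.D z = 0 := hD2 _ h5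
          rw [h6, hl]
          ring
        · by_cases h5 : l = de i j p.2
          · have e1 : bX M i j p (some l) = 1 := by rw [hbx, if_neg h4, if_pos h5]
            have e2 : (⟨bX M i j p (some l), hm (some l)⟩ : adj (M.A p.1)
              (M.x p.1 (nu i j p.2) / M.x p.1 (de i j p.2))) = 1 := Subtype.ext e1
            rw [e2]
            exact E.D_one
          · have e1 : bX M i j p (some l) = M.x p.1 l := by rw [hbx, if_neg h4, if_neg h5]
            have e2 : (⟨bX M i j p (some l), hm (some l)⟩ : adj (M.A p.1)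
              (M.x p.1 (nu i j p.2) / M.x p.1 (de i j p.2))) = ⟨M.x p.1 l, hle (M.xA p.1 l)⟩ :=
              Subtype.ext e1
            rw [e2] at hl ⊢
            exact (hE1 ⟨M.x p.1 l, M.xA p.1 l⟩).trans (hD2 _ hl)
    obtain ⟨E, hE1, hE2⟩ := key (M'.A p) hA' hle φ D hD2 (fun o => by
      rw [← hxp]; exact M'.xA p o)
    refine ⟨E, fun c hc => (hE1 c (h.BA p.1 hc)).trans (hD1 c hc), ?_⟩
    intro o ho
    have e : (⟨M'.x p o, M'.xA p o⟩ : M'.A p) = ⟨bX M i j p o, by
      rw [← hxp]; exact M'.xA p o⟩ := Subtype.ext (congrFun hxp o)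
    rw [e] at ho ⊢
    exact hE2 o ho

lemma bas_refine [Fintype I] (M : LM (⊥ : Subalgebra k K) ⊤ T I) {J : Type} (h : T → J → K)
    (M' : LM (⊥ : Subalgebra k K) ⊤ (T × J) I)
    (hA : M'.A = rA M h) (hx : M'.x = fun p => M.x p.1)
    {Q : Subalgebra k K} {Ds : Set (Derivation k K K)}
    {B : T → Subalgebra k K} {b : T → K} (hB : Bas Q Ds M B b) (hh : ∀ t b, (h t b)⁻¹ ∈ Q)
    (hm : ∀ t b, h t b ∈ M.A t) (h0 : ∀ t b, h t b ≠ 0) :
    Bas Q Ds M' (fun p => B p.1) (fun p => b p.1) where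
  A := by
    rw [hA]
    intro p
    exact adj_le (hB.A p.1) (hh _ _)
  x := by
    rw [hx]
    intro p i
    exact hB.x _ _
  BA := fun p => by
    rw [hA]
    exact (hB.BA p.1).trans (le_rA M h p)
  ft := fun p => hB.ft p.1
  bB := fun p => hB.bB p.1
  b0 := fun p => hB.b0 p.1
  DB := fun D hD p => hB.DB D hD p.1
  BQ := fun p => hB.BQ p.1
  cof := fun p q hq => by
    obtain ⟨c, hc, N, hc0, h1⟩ := hB.cof p.1 q hq
    refine ⟨c, hc, N, hc0, ?_⟩
    rw [hA, hx]
    exact le_rA M h p h1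
  bx := fun p => by
    obtain ⟨N, h1⟩ := hB.bx p.1
    refine ⟨N, ?_⟩
    rw [hA, hx]
    exact le_rA M h p h1
  sub := by
    intro p κ _ _ φ φ0 hφ hb D0
    have hle : M.A p.1 ≤ M'.A p := by rw [hA]; exact le_rA M h p
    obtain ⟨D, hD1, hD2⟩ := hB.sub p.1 κ (φ.comp (Subalgebra.inclusion hle)) φ0 hφ hb D0
    have hA' : M'.A p = adj (M.A p.1) (h p.1 p.2)⁻¹ := by rw [hA]; rfl
    have key : ∀ (A' : Subalgebra k K) (hA' : A' = adj (M.A p.1) (h p.1 p.2)⁻¹)
        (hle : M.A p.1 ≤ A') (φ : A' →ₐ[k] κ) (D : TV (φ.comp (Subalgebra.inclusion hle))),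
        ∃ E : TV φ, ∀ c (hc : c ∈ M.A p.1), E.D ⟨c, hle hc⟩ = D.D ⟨c, hc⟩ := by
      intro A' hA' hle φ D
      subst hA'
      obtain ⟨E, hE⟩ := TV.ext_loc (hm p.1 p.2) (h0 p.1 p.2) φ
        (φ.comp (Subalgebra.inclusion hle)) (fun a => rfl) D
      exact ⟨E, fun c hc => hE c hc _⟩
    obtain ⟨E, hE⟩ := key (M'.A p) hA' hle φ D
    refine ⟨E, fun c hc => (hE c (hB.BA p.1 hc)).trans (hD1 c hc), ?_⟩
    intro i hi
    have e : (⟨M'.x p i, M'.xA p i⟩ : M'.A p) = ⟨M.x p.1 i, hle (M.xA p.1 i)⟩ :=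
      Subtype.ext (congrFun (congrFun hx p) i)
    rw [e] at hi ⊢
    exact (hE _ (M.xA p.1 i)).trans (hD2 _ hi)

end lrg

section wt

variable {k K : Type u} [Field k] [Field K] [Algebra k K] {T I : Type} {G : Type}

/-- If there are no bad pairs then the functions become comparable after a refinement. -/
lemma cmp_of_no_bad3 [Finite T] [Fintype I] [DecidableEq I] (g : G → K) (a b : G)
    (M : LM (⊥ : Subalgebra k K) ⊤ T I) (Γ : G → I → ℤ) (h : ∀ p, ¬ Bad M (dc Γ a b) p) :
    ∃ (T' I' : Type) (_ : Finite T') (_ : Fintype I') (_ : DecidableEq I')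
      (M' : LM (⊥ : Subalgebra k K) ⊤ T' I') (Γ' : G → I' → ℤ), Ext3 g M Γ M' Γ' ∧ Cmp M' Γ' a b := by
  classical
  let s : Bool → Finset I := fun e =>
    if e then Finset.univ.filter (fun l => dc Γ a b l < 0) else
      Finset.univ.filter (fun l => 0 < dc Γ a b l)
  let h' : T → Bool → K := fun t e => ∏ l ∈ s e, M.x t l
  have hmem : ∀ t e, h' t e ∈ M.A t := fun t e => (M.A t).prod_mem fun l _ => M.xA t l
  have hne : ∀ t e, h' t e ≠ 0 := fun t e => Finset.prod_ne_zero_iff.2 fun l _ => M.x0 t l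
  have hcop : ∀ t, ∃ α ∈ M.A t, ∃ β ∈ M.A t, α * h' t true + β * h' t false = 1 := by
    intro t
    have key : IsCoprime (∏ l ∈ s true, (⟨M.x t l, M.xA t l⟩ : M.A t))
        (∏ l ∈ s false, (⟨M.x t l, M.xA t l⟩ : M.A t)) := by
      refine IsCoprime.prod_left fun l hl => IsCoprime.prod_right fun m hm => ?_
      have hl' : dc Γ a b l < 0 := by simpa [s] using hl
      have hm' : 0 < dc Γ a b m := by simpa [s] using hm
      have h1 : Sep M m l := by
        by_contra h2
        exact h (m, l) ⟨wt_pos.2 ⟨hm', hl'⟩, h2⟩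
      obtain ⟨α, hα, β, hβ, h3⟩ := h1.symm t
      exact ⟨⟨α, hα⟩, ⟨β, hβ⟩, Subtype.ext h3⟩
    obtain ⟨α, β, hαβ⟩ := key
    refine ⟨α, α.2, β, β.2, ?_⟩
    have := congrArg (Subtype.val : M.A t → K) hαβ
    simpa [h'] using this
  obtain ⟨M', hA, hx, hH⟩ := exists_refine M h' hmem hne (by
    intro t V hV
    obtain ⟨α, hα, β, hβ, h1⟩ := hcop t
    have hV1 : h' t true ∈ V := hV _ (hmem _ _)
    have hV2 : h' t false ∈ V := hV _ (hmem _ _)
    by_contra hcon
    push Not at hcon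
    have h2 : ∀ e, V.valuation (h' t e) < 1 := by
      intro e
      have h3 : (h' t e)⁻¹ ∉ V := hcon e
      rw [← V.valuation_le_one_iff, map_inv₀, not_le] at h3
      have h4 : V.valuation (h' t e) ≠ 0 := by
        rw [ne_eq, map_eq_zero]; exact hne t e
      exact (one_lt_inv₀ (zero_lt_iff.2 h4)).1 h3
    have h5 : V.valuation (α * h' t true + β * h' t false) < 1 := by
      refine Valuation.map_add_lt _ ?_ ?_
      · rw [map_mul]
        exact (mul_le_of_le_one_left' ((V.valuation_le_one_iff _).2 (hV _ hα))).trans_lt (h2 _)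
      · rw [map_mul]
        exact (mul_le_of_le_one_left' ((V.valuation_le_one_iff _).2 (hV _ hβ))).trans_lt (h2 _)
    rw [h1, map_one] at h5
    exact lt_irrefl _ h5)
  refine ⟨T × Bool, I, inferInstance, inferInstance, inferInstance, M', Γ, ⟨?_, ?_⟩, ?_⟩
  · refine ext_refine M h' hmem hne ?_ g Γ M' hA hx hH
    intro F hF t e
    have : ∀ s : Finset I, ∃ n : ℕ, F ^ n / ∏ l ∈ s, M.x t l ∈ M.A t := by
      intro s
      induction s using Finset.induction_on with
      | empty => exact ⟨0, by simp⟩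
      | insert l s hl ih =>
        obtain ⟨n, hn⟩ := ih
        obtain ⟨m, hm⟩ := hF.Fx t l
        refine ⟨m + n, ?_⟩
        rw [Finset.prod_insert hl, pow_add, mul_div_mul_comm]
        exact (M.A t).mul_mem hm hn
    exact this _
  · intro Q Ds B b hB
    refine ⟨_, _, bas_refine M h' M' hA hx hB ?_ hmem hne⟩
    intro t e
    change (∏ l ∈ s e, M.x t l)⁻¹ ∈ Q
    rw [← Finset.prod_inv_distrib]
    exact Q.prod_mem fun l _ => hB.x t l
  · rintro ⟨t, e⟩
    rw [hA, hx]
    have hu : ∀ l ∈ s e, (M.x t l)⁻¹ ∈ rA M h' (t, e) := by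
      intro l hl
      have h1 : (M.x t l)⁻¹ = (∏ m ∈ (s e).erase l, M.x t m) * (h' t e)⁻¹ := by
        have h2 : h' t e = M.x t l * ∏ m ∈ (s e).erase l, M.x t m :=
          (Finset.mul_prod_erase _ _ hl).symm
        rw [h2]
        have h3 := M.x0 t l
        have h4 : ∏ m ∈ (s e).erase l, M.x t m ≠ 0 :=
          Finset.prod_ne_zero_iff.2 fun l _ => M.x0 t l
        field_simp
      rw [h1]
      exact (rA M h' (t, e)).mul_mem
        (le_rA M h' (t, e) ((M.A t).prod_mem fun m _ => M.xA t m)) (inv_mem_rA M h' (t, e))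
    cases e
    · -- the divisors with positive exponent are units
      left
      intro l
      by_cases hl : 0 < dc Γ a b l
      · right
        exact hu l (by simpa [s] using hl)
      · left
        simp only [dc] at hl
        omega
    · right
      intro l
      by_cases hl : dc Γ a b l < 0
      · right
        exact hu l (by simpa [s] using hl)
      · left
        simp only [dc] at hl
        omega

theorem princ_aux3 (g : G → K) (a b : G) : ∀ (W n : ℕ) {T I : Type} [Finite T] [Fintype I]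
    [DecidableEq I] (M : LM (⊥ : Subalgebra k K) ⊤ T I) (Γ : G → I → ℤ),
    (∀ p, Bad M (dc Γ a b) p → wt (dc Γ a b) p ≤ W) →
    {p | Bad M (dc Γ a b) p ∧ wt (dc Γ a b) p = W}.ncard ≤ n →
    ∃ (T' I' : Type) (_ : Finite T') (_ : Fintype I') (_ : DecidableEq I')
      (M' : LM (⊥ : Subalgebra k K) ⊤ T' I') (Γ' : G → I' → ℤ), Ext3 g M Γ M' Γ' ∧ Cmp M' Γ' a b := by
  intro W
  induction W with
  | zero =>
    intro n T I _ _ _ M Γ hW hn
    refine cmp_of_no_bad3 g a b M Γ ?_
    intro p hp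
    have := hW p hp
    have := hp.1
    omega
  | succ W ihW =>
    intro n
    induction n with
    | zero =>
      intro T I _ _ _ M Γ hW hn
      refine ihW _ M Γ ?_ le_rfl
      intro p hp
      have h1 := hW p hp
      rcases h1.lt_or_eq with h2 | h2
      · omega
      · exfalso
        have h3 : {p | Bad M (dc Γ a b) p ∧ wt (dc Γ a b) p = W + 1} = ∅ := by
          rw [← Set.ncard_eq_zero (Set.toFinite _)]
          omega
        have h4 : p ∈ {p | Bad M (dc Γ a b) p ∧ wt (dc Γ a b) p = W + 1} := ⟨hp, h2⟩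
        rw [h3] at h4
        exact h4
    | succ n ihn =>
      intro T I _ _ _ M Γ hW hn
      by_cases hex : ∃ p, Bad M (dc Γ a b) p ∧ wt (dc Γ a b) p = W + 1
      · obtain ⟨⟨i, j⟩, hb, hwt⟩ := hex
        have hij : i ≠ j := by
          rintro rfl
          obtain ⟨h1, h2⟩ := wt_pos.1 hb.1
          simp only at h1 h2
          omega
        obtain ⟨M', hA, hx, hH⟩ := exists_blowup M hij
        obtain ⟨hd1, hd2⟩ := dc_blowup i j Γ a b
        have key := bad_blowup M hij M' hA hx _ _ hd1 hd2 (W + 1) hW hb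
        obtain ⟨T'', I'', i1, i2, i3, M'', Γ'', hE, hC⟩ := ihn M' (fun a => bΓ i j (Γ a)) (by
          intro q hq
          rcases key q hq with h1 | ⟨l, l', h1, h2, h3, h4⟩
          · exact h1.le
          · rw [← h3]
            exact hW _ h2) (by
          have h5 : {q | Bad M' (dc (fun a => bΓ i j (Γ a)) a b) q ∧
              wt (dc (fun a => bΓ i j (Γ a)) a b) q = W + 1} ⊆
              (fun q : I × I => (some q.1, some q.2)) ''
                ({p | Bad M (dc Γ a b) p ∧ wt (dc Γ a b) p = W + 1} \ {(i, j)}) := by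
            rintro q ⟨hq, hq'⟩
            rcases key q hq with h1 | ⟨l, l', h1, h2, h3, h4⟩
            · omega
            · exact ⟨(l, l'), ⟨⟨h2, by rw [h3, hq']⟩, h4⟩, h1.symm⟩
          have h6 := Set.ncard_le_ncard h5 (Set.toFinite _)
          have h7 := Set.ncard_image_le (f := fun q : I × I => (some q.1, some q.2))
            (s := {p | Bad M (dc Γ a b) p ∧ wt (dc Γ a b) p = W + 1} \ {(i, j)}) (Set.toFinite _)
          have h8 := Set.ncard_sdiff_singleton_lt_of_mem
            (s := {p | Bad M (dc Γ a b) p ∧ wt (dc Γ a b) p = W + 1}) (a := (i, j)) ⟨hb, hwt⟩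
            (Set.toFinite _)
          omega)
        exact ⟨T'', I'', i1, i2, i3, M'', Γ'', Ext3.trans ⟨ext_blowup M hij g Γ M' hA hx hH,
          fun Q Ds B b hB => ⟨_, _, bas_blowup M hij M' hA hx hB⟩⟩ hE, hC⟩
      · refine ihW _ M Γ ?_ le_rfl
        intro p hp
        have h1 := hW p hp
        rcases h1.lt_or_eq with h2 | h2
        · omega
        · exact absurd ⟨p, hp, h2⟩ hex

theorem princ_pair3 (g : G → K) (a b : G) [Finite T] [Fintype I] [DecidableEq I]
    (M : LM (⊥ : Subalgebra k K) ⊤ T I) (Γ : G → I → ℤ) :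
    ∃ (T' I' : Type) (_ : Finite T') (_ : Fintype I') (_ : DecidableEq I')
      (M' : LM (⊥ : Subalgebra k K) ⊤ T' I') (Γ' : G → I' → ℤ), Ext3 g M Γ M' Γ' ∧ Cmp M' Γ' a b := by
  refine princ_aux3 g a b (Finset.univ.sup (wt (dc Γ a b))) _ M Γ ?_ le_rfl
  intro p _
  exact Finset.le_sup (Finset.mem_univ p)

/-- Principalization. -/
theorem princ_all3 (g : G → K) [Finite G] [Finite T] [Fintype I] [DecidableEq I]
    (M : LM (⊥ : Subalgebra k K) ⊤ T I) (Γ : G → I → ℤ) :
    ∃ (T' I' : Type) (_ : Finite T') (_ : Fintype I') (_ : DecidableEq I')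
      (M' : LM (⊥ : Subalgebra k K) ⊤ T' I') (Γ' : G → I' → ℤ), Ext3 g M Γ M' Γ' ∧ ∀ a b, Cmp M' Γ' a b := by
  classical
  have : Fintype G := Fintype.ofFinite G
  have key : ∀ s : Finset (G × G), ∃ (T' I' : Type) (_ : Finite T') (_ : Fintype I')
      (_ : DecidableEq I') (M' : LM (⊥ : Subalgebra k K) ⊤ T' I') (Γ' : G → I' → ℤ), Ext3 g M Γ M' Γ' ∧
        ∀ p ∈ s, Cmp M' Γ' p.1 p.2 := by
    intro s
    induction s using Finset.induction_on with
    | empty =>
      exact ⟨T, I, inferInstance, inferInstance, inferInstance, M, Γ, Ext3.refl g M Γ, by simp⟩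
    | insert q s hq ih =>
      obtain ⟨T1, I1, i1, i2, i3, M1, Γ1, hE1, hC1⟩ := ih
      obtain ⟨T2, I2, j1, j2, j3, M2, Γ2, hE2, hC2⟩ := princ_pair3 g q.1 q.2 M1 Γ1
      refine ⟨T2, I2, j1, j2, j3, M2, Γ2, hE1.trans hE2, ?_⟩
      intro p hp
      rcases Finset.mem_insert.1 hp with rfl | hp
      · exact hC2
      · exact hE2.1.cmp _ _ (hC1 p hp)
  obtain ⟨T', I', i1, i2, i3, M', Γ', hE, hC⟩ := key Finset.univ
  exact ⟨T', I', i1, i2, i3, M', Γ', hE, fun a b => hC (a, b) (Finset.mem_univ _)⟩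

end wt

theorem princ3_main : S2_princ.{u} := by
  intro k K _ _ _ T I G _ _ _ _ M g Γ
  exact princ_all3 g M Γ

end Pool.Agent.W558
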